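import Pool.Agent.Run7.h714.FA.Main

set_option autoImplicit false

/-!
# The radical of the second dual of the Fourier algebra

For every infinite locally compact group `G` the second dual `A(G)''` with the first Arens product
has a nonzero Jacobson radical; there is even a nonzero `Φ` with `Φ □ Ψ □ Φ = 0` for all `Ψ`.
-/

namespace Pool.Agent.Results.MP_129c4a_an.BidualRadicalNonzero

open MeasureTheory H434R3.Arens Run7.h714.FA

/-- Let `G` be an infinite locally compact (Hausdorff) group with Haar measure `μ` and let `A` be
its Fourier algebra `A(G)`. Then `rad (A'', □)` is nonzero. -/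
theorem result {G : Type*} [Group G] [TopologicalSpace G] [IsTopologicalGroup G]
    [LocallyCompactSpace G] [T2Space G] [Infinite G] [MeasurableSpace G] [BorelSpace G]
    (μ : Measure G) [μ.IsHaarMeasure] [μ.Regular]
    {A : Type*} [NonUnitalNormedRing A] [NormedSpace ℂ A] [IsScalarTower ℂ A A]
    [SMulCommClass ℂ A A] (M : FourierAlg μ A) :
    ∃ Φ : Bidual A, Φ ≠ 0 ∧ InRad Φ ∧ ∀ Ψ : Bidual A, Φ * Ψ * Φ = 0 :=
  main μ M

end Pool.Agent.Results.MP_129c4a_an.BidualRadicalNonzero
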